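import Pool.Agent.L7h70.PO.Main

set_option autoImplicit false

namespace Pool.Agent.Results.MP_4dfdc8_co.EulerianFour

/-- Every graph `G` with all degrees even and maximum degree four has a path odd-cover with at most
three paths: paths in the complete graph on the vertices of `G` such that two distinct vertices are
adjacent in `G` exactly when their edge lies on an odd number of the paths. -/
theorem result :
    ∀ (n : ℕ) (G : SimpleGraph (Fin n)) [DecidableRel G.Adj],
      (∀ v : Fin n, Even (G.degree v)) → G.maxDegree = 4 →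
      ∃ (k : ℕ) (u v : Fin k → Fin n)
        (P : ∀ i : Fin k, (⊤ : SimpleGraph (Fin n)).Walk (u i) (v i)),
        k ≤ 3 ∧ (∀ i : Fin k, (P i).IsPath) ∧
        ∀ a b : Fin n, a ≠ b →
          (G.Adj a b ↔
            Odd ((Finset.univ.filter (fun i : Fin k => s(a, b) ∈ (P i).edges)).card)) := by
  intro n G _ hE hmax
  have h4 : ∀ v, G.degree v ≤ 4 := fun v => hmax ▸ G.degree_le_maxDegree v
  have hne : Nonempty (Fin n) := by
    by_contra hn
    rw [not_nonempty_iff] at hn
    have h0 : G.maxDegree ≤ 0 := by
      apply G.maxDegree_le_of_forall_degree_le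
      intro v
      exact (hn.false v).elim
    omega
  obtain ⟨v0, hv0⟩ := G.exists_maximal_degree_vertex
  obtain ⟨u, v, w, hw, h⟩ := Pool.Agent.L7h70.PO.main G hE h4 ⟨v0, by rw [← hv0, hmax]⟩
  exact ⟨3, u, v, w, le_rfl, hw, h⟩

end Pool.Agent.Results.MP_4dfdc8_co.EulerianFour
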